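import Pool.Agent.Lib.MP_28303a_al.TW.Graph

/-! # HYP: hyperbolic elements fix no vertex -/

set_option autoImplicit false

namespace Pool.Agent.NegK.TW.H57

universe u

open Pool.Agent.NegK Pool.Agent.NegK.TW

/-- Distances are invariant. -/
theorem dist_smul {Γ V : Type u} [Group Γ] [MulAction Γ V] {G : SimpleGraph V}
    (h : TreeAct Γ G) (g : Γ) (v w : V) : G.dist (g • v) (g • w) = G.dist v w := by
  have key : ∀ (g : Γ) (v w : V), G.dist (g • v) (g • w) ≤ G.dist v w := by
    intro g v w
    obtain ⟨p, hp⟩ := h.tree.connected.exists_walk_length_eq_dist v w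
    let φ : G →g G := ⟨fun x => g • x, fun {a b} hab => h.adj g a b hab⟩
    have h1 := SimpleGraph.dist_le (p.map φ)
    rw [SimpleGraph.Walk.length_map, hp] at h1
    exact h1
  refine le_antisymm (key g v w) ?_
  have h2 := key g⁻¹ (g • v) (g • w)
  rwa [inv_smul_smul, inv_smul_smul] at h2

/-- HYP. -/
theorem hyp (hL : LevStatement.{u}) : HypStatement.{u} := by
  intro Γ V E _ _ _ G T hA hT g η hη x hx
  obtain ⟨-, h2⟩ := hL Γ V E G T hA.tree hT
  have hinc : ∀ η' : Dt E, Relation.TransGen T.prev.R η η' → lev T G x η < lev T G x η' := by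
    intro η' h
    induction h with
    | single h => exact h2 x _ _ h
    | tail _ h ih => exact ih.trans (h2 x _ _ h)
  have h3 := hinc _ hη
  have d1 : G.dist (T.src (g • η)) x = G.dist (T.src η) x := by
    conv_lhs => rw [T.src_smul, ← hx]
    exact dist_smul hA g _ _
  have d2 : G.dist (T.tgt (g • η)) x = G.dist (T.tgt η) x := by
    conv_lhs => rw [T.tgt_smul, ← hx]
    exact dist_smul hA g _ _
  have h4 : lev T G x (g • η) = lev T G x η := by
    unfold lev
    rw [d1, d2]
  rw [h4] at h3
  exact lt_irrefl _ h3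

end Pool.Agent.NegK.TW.H57
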