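import Pool.Agent.Lib.MP_28303a_al.TW.Graph

/-! # ORI: invariant orientations -/

set_option autoImplicit false

namespace Pool.Agent.NegK.TW.H57

universe u

open Pool.Agent.NegK Pool.Agent.NegK.TW

/-- ORI. -/
theorem ori : OriStatement.{u} := by
  intro Γ V _ _ G hadj hinv
  -- the orbit of an ordered pair
  let c : V → V → Quotient (MulAction.orbitRel Γ (V × V)) := fun v w => Quotient.mk _ (v, w)
  have hc : ∀ (g : Γ) v w, c (g • v) (g • w) = c v w := by
    intro g v w
    refine Quotient.sound ?_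
    show (g • v, g • w) ∈ MulAction.orbit Γ (v, w)
    exact ⟨g, rfl⟩
  have hne : ∀ v w, G.Adj v w → c v w ≠ c w v := by
    intro v w h e
    have h1 : (MulAction.orbitRel Γ (V × V)).r (v, w) (w, v) := Quotient.exact e
    obtain ⟨g, hg⟩ : (v, w) ∈ MulAction.orbit Γ (w, v) := h1
    have h2 : g • w = v := congrArg Prod.fst hg
    have h3 : g • v = w := congrArg Prod.snd hg
    exact hinv g v w h ⟨h3, h2⟩
  refine ⟨fun v w => G.Adj v w ∧ WellOrderingRel (c v w) (c w v), fun v w h => h.1,
    fun g v w h => ⟨hadj g v w h.1, ?_⟩, fun v w h => ⟨fun h1 h2 => ?_, fun h1 => ⟨h, ?_⟩⟩⟩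
  · rw [hc, hc]
    exact h.2
  · exact asymm_of WellOrderingRel h1.2 h2.2
  · rcases trichotomous_of WellOrderingRel (c v w) (c w v) with h3 | h3 | h3
    · exact h3
    · exact absurd h3 (hne v w h)
    · exact absurd ⟨h.symm, h3⟩ h1

end Pool.Agent.NegK.TW.H57
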