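import Pool.Agent.Lib.MP_28303a_al.TW.Graph

/-! # TRE: the tree of a simple graph -/

set_option autoImplicit false

namespace Pool.Agent.NegK.TW.H57

universe u

open Pool.Agent.NegK Pool.Agent.NegK.TW

/-- The oriented edges. -/
structure OEd {V : Type u} (O : V → V → Prop) : Type u where
  o : V
  t : V
  rel : O o t

theorem OEd.ext' {V : Type u} {O : V → V → Prop} {e e' : OEd O} (h1 : e.o = e'.o)
    (h2 : e.t = e'.t) : e = e' := by
  obtain ⟨a, b, c⟩ := e
  obtain ⟨a', b', c'⟩ := e'
  simp only at h1 h2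
  subst h1 h2
  rfl

/-- TRE. -/
theorem tre (hH : HalfStatement.{u}) (hO : OriStatement.{u}) : TreStatement.{u} := by
  intro Γ V _ _ G hT
  obtain ⟨O, h1, h2, h3⟩ := hO Γ V G hT.adj hT.noinv
  have hdist : ∀ e : OEd O, 0 < G.dist e.t e.o := fun e =>
    hT.tree.connected.pos_dist_of_ne (h1 _ _ e.rel).ne.symm
  let act : MulAction Γ (OEd O) :=
    { smul := fun g e => ⟨g • e.o, g • e.t, h2 g _ _ e.rel⟩
      one_smul := fun e => OEd.ext' (one_smul Γ e.o) (one_smul Γ e.t)
      mul_smul := fun g h e => OEd.ext' (mul_smul g h e.o) (mul_smul g h e.t) }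
  refine ⟨OEd O, act, ?_⟩
  let T : OTree Γ V (OEd O) :=
    { o := OEd.o
      t := OEd.t
      H := fun e => {v | G.dist v e.t < G.dist v e.o}
      o_smul := fun g e => rfl
      t_smul := fun g e => rfl
      t_mem := fun e => by
        show G.dist e.t e.t < G.dist e.t e.o
        rw [SimpleGraph.dist_self]
        exact hdist e
      o_notMem := fun e => by
        show ¬ G.dist e.o e.t < G.dist e.o e.o
        rw [SimpleGraph.dist_self]
        omega
      cross := fun e e' hne => by
        refine hH V G hT.tree e.o e.t e'.o e'.t (h1 _ _ e.rel) (h1 _ _ e'.rel) ?_ ?_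
        · rintro ⟨a, b⟩
          exact hne (OEd.ext' a b)
        · rintro ⟨a, b⟩
          have r := e'.rel
          rw [a, b] at r
          exact (h3 _ _ (h1 _ _ e.rel)).1 e.rel r }
  refine ⟨T, ?_⟩
  refine ⟨fun e => h1 _ _ e.rel, fun e e' a b => OEd.ext' a b, fun v w h => ?_,
    fun e e' a b => ?_⟩
  · by_cases h4 : O v w
    · exact Or.inl ⟨⟨v, w, h4⟩, rfl, rfl⟩
    · have h5 : O w v := by
        by_contra hc
        exact h4 ((h3 v w h).2 hc)
      exact Or.inr ⟨⟨w, v, h5⟩, rfl, rfl⟩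
  · have r := e'.rel
    have a' : e.o = e'.t := a
    have b' : e.t = e'.o := b
    rw [← a', ← b'] at r
    exact (h3 _ _ (h1 _ _ e.rel)).1 e.rel r

end Pool.Agent.NegK.TW.H57
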